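import Pool.Agent.H93.BD.Targets
import Pool.Agent.H93.BD.Targets2

/-!
Local Bourgain-Guth inequality: target BGL of the board bdc_modules.
-/

set_option autoImplicit false

open MeasureTheory
open scoped ENNReal NNReal

namespace Pool.Agent.H89.BD

open Pool.Agent.H93.BD

theorem card_Bx (n a : ℕ) : (Bx n a).card = (2 ^ a) ^ n := by
  have e : ((2 : ℤ) ^ a).toNat = 2 ^ a := by
    rw [show (2 : ℤ) ^ a = ((2 ^ a : ℕ) : ℤ) by push_cast; rfl]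
    exact Int.toNat_natCast _
  unfold Bx
  simp [Fintype.card_piFinset, e]

theorem add_rpow_le (x y : ℝ≥0∞) {r : ℝ} (hr : 0 ≤ r) :
    (x + y) ^ r ≤ 2 ^ r * (x ^ r + y ^ r) := by
  rcases le_total x y with h | h
  · calc (x + y) ^ r ≤ (2 * y) ^ r := by
          apply ENNReal.rpow_le_rpow _ hr
          rw [two_mul]
          gcongr
      _ = 2 ^ r * y ^ r := ENNReal.mul_rpow_of_nonneg _ _ hr
      _ ≤ _ := by
          gcongr
          exact le_add_self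
  · calc (x + y) ^ r ≤ (2 * x) ^ r := by
          apply ENNReal.rpow_le_rpow _ hr
          rw [two_mul]
          gcongr
      _ = 2 ^ r * x ^ r := ENNReal.mul_rpow_of_nonneg _ _ hr
      _ ≤ _ := by
          gcongr
          exact le_self_add

/-- the growth factor of the ball weight -/
noncomputable def Wf (m : ℕ) (K : ℝ) (z : X m) : ℝ≥0∞ :=
  ENNReal.ofReal ((1 + ‖z.1‖ / K) ^ (m + 2) * (1 + |z.2| / K) ^ (m + 2))

theorem cv_shift (hWT : T_WT) {m : ℕ} (K : ℝ) (hK : 0 < K) (f : X m → ℝ≥0∞) (x x0 : X m) :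
    cv f (kw m K) x ≤ Wf m K (x - x0) * cv f (kw m K) x0 := by
  unfold cv
  rw [← lintegral_const_mul' _ _ (by unfold Wf; exact ENNReal.ofReal_ne_top)]
  refine lintegral_mono fun z => ?_
  have h := hWT m K hK (x0 - z) (x - x0)
  have e : x - z = (x0 - z) + (x - x0) := by abel
  calc f z * kw m K (x - z) = f z * kw m K ((x0 - z) + (x - x0)) := by rw [e]
    _ ≤ f z * (Wf m K (x - x0) * kw m K (x0 - z)) := by
        gcongr
        exact h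
    _ = _ := by ring

theorem sum_pt {ι : Type} (c W : ℝ≥0∞) (T : Finset ι) (f : ι → ℂ) (H : ι → ℝ≥0∞)
    (h : ∀ α ∈ T, ‖f α‖ₑ ^ (2 : ℝ) ≤ c * W * H α) {p : ℝ} (hp : 0 ≤ p) :
    ‖∑ α ∈ T, f α‖ₑ ^ p ≤ (c * W) ^ (p / 2) * (∑ α ∈ T, (H α) ^ (1 / 2 : ℝ)) ^ p := by
  have h1 : ∀ α ∈ T, ‖f α‖ₑ ≤ (c * W) ^ (1 / 2 : ℝ) * (H α) ^ (1 / 2 : ℝ) := by
    intro α hα
    have h2 := ENNReal.rpow_le_rpow (h α hα) (z := (1 / 2 : ℝ)) (by norm_num)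
    rw [← ENNReal.rpow_mul, ENNReal.mul_rpow_of_nonneg _ _ (by norm_num : (0 : ℝ) ≤ 1 / 2)] at h2
    norm_num at h2
    norm_num
    exact h2
  calc ‖∑ α ∈ T, f α‖ₑ ^ p ≤ ((c * W) ^ (1 / 2 : ℝ) * ∑ α ∈ T, (H α) ^ (1 / 2 : ℝ)) ^ p := by
        apply ENNReal.rpow_le_rpow _ hp
        rw [Finset.mul_sum]
        exact (enorm_sum_le _ _).trans (Finset.sum_le_sum h1)
    _ = _ := by
        rw [ENNReal.mul_rpow_of_nonneg _ _ hp, ← ENNReal.rpow_mul]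
        congr 2
        ring

theorem vol_reg (m : ℕ) : ∃ V : ℝ≥0∞, V ≠ ∞ ∧ ∀ K : ℝ, 0 ≤ K → ∀ x0 : X m,
    volume {x : X m | ‖x.1 - x0.1‖ ≤ K ∧ |x.2 - x0.2| ≤ K} = V * ENNReal.ofReal (K ^ (m + 1)) := by
  refine ⟨volume (Metric.ball (0 : E m) 1) * 2, ?_, ?_⟩
  · exact ENNReal.mul_ne_top measure_ball_lt_top.ne (by norm_num)
  · intro K hK x0
    have e : {x : X m | ‖x.1 - x0.1‖ ≤ K ∧ |x.2 - x0.2| ≤ K}
        = Metric.closedBall x0.1 K ×ˢ Metric.closedBall x0.2 K := by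
      ext x
      simp [Metric.mem_closedBall, dist_eq_norm]
    rw [e, Measure.volume_eq_prod, Measure.prod_prod, Measure.addHaar_closedBall _ _ hK,
      Real.volume_closedBall, finrank_euclideanSpace, Fintype.card_fin]
    rw [ENNReal.ofReal_mul (by norm_num : (0 : ℝ) ≤ 2), pow_succ, ENNReal.ofReal_mul (by positivity)]
    norm_num
    ring

theorem meas_kw' (m : ℕ) (R : ℝ) : Measurable (kw m R) := by
  unfold kw gw
  fun_prop

theorem meas_wt {m : ℕ} (N : ℕ) (R : ℝ) : Measurable (wt (m := m) N R) := by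
  unfold wt
  fun_prop

/-- the growth factor is absorbed by the weight -/
theorem Wf_wt {m N : ℕ} {p : ℝ} (hN : ((m : ℝ) + 2) * (p / 2 + 1) ≤ N) (K : ℝ)
    (hK : 0 < K) (z : X m) :
    Wf m K z ^ (p / 2) * wt N K z ≤ ENNReal.ofReal (K ^ (m + 1)) * kw m K z := by
  have key : ∀ a : ℝ, 1 ≤ a → (a ^ (m + 2)) ^ (p / 2) * (a ^ N)⁻¹ ≤ (a ^ (m + 2))⁻¹ := by
    intro a ha
    have ha0 : 0 < a := by linarith
    rw [← div_eq_mul_inv, div_le_iff₀ (by positivity), ← Real.rpow_natCast a N,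
      ← Real.rpow_natCast a (m + 2), ← Real.rpow_mul ha0.le, ← Real.rpow_neg ha0.le,
      ← Real.rpow_add ha0]
    apply Real.rpow_le_rpow_of_exponent_le ha
    push_cast
    linarith
  unfold Wf wt kw gw
  rw [ENNReal.ofReal_rpow_of_pos (by positivity), ← ENNReal.ofReal_mul (by positivity),
    ← ENNReal.ofReal_mul (by positivity)]
  apply ENNReal.ofReal_le_ofReal
  rw [Real.mul_rpow (by positivity) (by positivity)]
  have h1 := key (1 + ‖z.1‖ / K) (by have : 0 ≤ ‖z.1‖ / K := by positivity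
                                     linarith)
  have h2 := key (1 + |z.2| / K) (by have : 0 ≤ |z.2| / K := by positivity
                                     linarith)
  have e : K ^ (m + 1) * ((K ^ m * K)⁻¹ * ((1 + ‖z.1 + (2 * z.2) • (0 : E m)‖ / K) ^ (m + 2))⁻¹ *
      ((1 + |z.2| / K) ^ (m + 2))⁻¹) =
      ((1 + ‖z.1‖ / K) ^ (m + 2))⁻¹ * ((1 + |z.2| / K) ^ (m + 2))⁻¹ := by
    rw [smul_zero, add_zero, pow_succ K m]
    field_simp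
  rw [e]
  calc _ = (((1 + ‖z.1‖ / K) ^ (m + 2)) ^ (p / 2) * ((1 + ‖z.1‖ / K) ^ N)⁻¹) *
        (((1 + |z.2| / K) ^ (m + 2)) ^ (p / 2) * ((1 + |z.2| / K) ^ N)⁻¹) := by ring
    _ ≤ _ := by gcongr

/-- the growth factor on the region -/
theorem Wf_reg {m : ℕ} (K : ℝ) (hK : 0 < K) (z : X m) (h1 : ‖z.1‖ ≤ K) (h2 : |z.2| ≤ K) :
    Wf m K z ≤ 4 ^ (m + 2) := by
  unfold Wf
  have e : (4 : ℝ≥0∞) ^ (m + 2) = ENNReal.ofReal (4 ^ (m + 2)) := by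
    rw [ENNReal.ofReal_pow (by norm_num)]
    norm_num
  rw [e]
  apply ENNReal.ofReal_le_ofReal
  have h3 : ‖z.1‖ / K ≤ 1 := (div_le_one hK).2 h1
  have h4 : |z.2| / K ≤ 1 := (div_le_one hK).2 h2
  calc (1 + ‖z.1‖ / K) ^ (m + 2) * (1 + |z.2| / K) ^ (m + 2)
      ≤ (1 + 1) ^ (m + 2) * (1 + 1) ^ (m + 2) := by gcongr
    _ = _ := by rw [← mul_pow]; norm_num

/-- weighted integral of a sum of pieces -/
theorem int_wt (hWM : T_WM) (m : ℕ) : ∃ c2 : ℝ≥0∞, c2 ≠ ∞ ∧ ∀ (N : ℕ) (p : ℝ),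
    ((m : ℝ) + 2) * (p / 2 + 1) ≤ N → 0 ≤ p → ∀ (K : ℝ), 0 < K → ∀ (x0 : X m) (c B : ℝ≥0∞),
    ∀ F : X m → ℂ, (∀ x, ‖F x‖ₑ ^ p ≤ (c * Wf m K (x - x0)) ^ (p / 2) * B) →
    ∫⁻ x, ‖F x‖ₑ ^ p * wt N K (x - x0) ≤ c ^ (p / 2) * B * (ENNReal.ofReal (K ^ (m + 1)) * c2) := by
  obtain ⟨C, hC⟩ := hWM m (m + 2) le_rfl
  refine ⟨ENNReal.ofReal C, ENNReal.ofReal_ne_top, ?_⟩
  intro N p hN hp K hK x0 c B F hF
  have hp2 : 0 ≤ p / 2 := by positivity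
  calc ∫⁻ x, ‖F x‖ₑ ^ p * wt N K (x - x0)
      ≤ ∫⁻ x, (c ^ (p / 2) * B * ENNReal.ofReal (K ^ (m + 1))) * kw m K (x - x0) := by
        refine lintegral_mono fun x => ?_
        calc ‖F x‖ₑ ^ p * wt N K (x - x0)
            ≤ ((c * Wf m K (x - x0)) ^ (p / 2) * B) * wt N K (x - x0) := by gcongr; exact hF x
          _ = c ^ (p / 2) * B * (Wf m K (x - x0) ^ (p / 2) * wt N K (x - x0)) := by
              rw [ENNReal.mul_rpow_of_nonneg _ _ hp2]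
              ring
          _ ≤ c ^ (p / 2) * B * (ENNReal.ofReal (K ^ (m + 1)) * kw m K (x - x0)) := by
              exact mul_le_mul_right (Wf_wt hN K hK _) _
          _ = _ := by ring
    _ = (c ^ (p / 2) * B * ENNReal.ofReal (K ^ (m + 1))) * ∫⁻ x, kw m K (x - x0) := by
        rw [lintegral_const_mul]
        exact (meas_kw' m K).comp (measurable_id.sub_const x0)
    _ = (c ^ (p / 2) * B * ENNReal.ofReal (K ^ (m + 1))) * ∫⁻ x, kw m K x := by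
        have : (volume : Measure (X m)).IsAddRightInvariant := by
          rw [Measure.volume_eq_prod]
          infer_instance
        rw [lintegral_sub_right_eq_self (fun x => kw m K x) x0]
    _ ≤ (c ^ (p / 2) * B * ENNReal.ofReal (K ^ (m + 1))) * ENNReal.ofReal C := by
        gcongr
        exact hC K K hK hK 0
    _ = _ := by ring

/-- integral over the region -/
theorem int_reg (m : ℕ) : ∃ V : ℝ≥0∞, V ≠ ∞ ∧ ∀ (p : ℝ), 0 ≤ p → ∀ (K : ℝ), 0 < K →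
    ∀ (x0 : X m) (c B : ℝ≥0∞), ∀ F : X m → ℂ,
    (∀ x, ‖F x‖ₑ ^ p ≤ (c * Wf m K (x - x0)) ^ (p / 2) * B) →
    ∫⁻ x in {x : X m | ‖x.1 - x0.1‖ ≤ K ∧ |x.2 - x0.2| ≤ K}, ‖F x‖ₑ ^ p
      ≤ (c * 4 ^ (m + 2)) ^ (p / 2) * B * (V * ENNReal.ofReal (K ^ (m + 1))) := by
  obtain ⟨V, hV, hvol⟩ := vol_reg m
  refine ⟨V, hV, ?_⟩
  intro p hp K hK x0 c B F hF
  have hp2 : 0 ≤ p / 2 := by positivity
  have hms : MeasurableSet {x : X m | ‖x.1 - x0.1‖ ≤ K ∧ |x.2 - x0.2| ≤ K} := by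
    have e : {x : X m | ‖x.1 - x0.1‖ ≤ K ∧ |x.2 - x0.2| ≤ K}
        = {x : X m | ‖x.1 - x0.1‖ ≤ K} ∩ {x : X m | |x.2 - x0.2| ≤ K} := rfl
    rw [e]
    exact ((isClosed_le (by fun_prop) (by fun_prop)).inter
      (isClosed_le (by fun_prop) (by fun_prop))).measurableSet
  calc ∫⁻ x in {x : X m | ‖x.1 - x0.1‖ ≤ K ∧ |x.2 - x0.2| ≤ K}, ‖F x‖ₑ ^ p
      ≤ ∫⁻ x in {x : X m | ‖x.1 - x0.1‖ ≤ K ∧ |x.2 - x0.2| ≤ K},
          (c * 4 ^ (m + 2)) ^ (p / 2) * B := by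
        refine setLIntegral_mono' hms fun x hx => ?_
        refine (hF x).trans ?_
        gcongr
        exact Wf_reg K hK (x - x0) hx.1 hx.2
    _ = _ := by
        rw [setLIntegral_const, hvol K hK.le x0]

/-- the product form of a power -/
theorem rpow_prod (n : ℕ) (p : ℝ) (hp : 0 ≤ p) (x A : ℝ≥0∞) (H : Fin (n + 1) → ℝ≥0∞)
    (h : ∀ i, x ≤ A * H i ^ (1 / 2 : ℝ)) :
    x ^ p ≤ A ^ p * ∏ i, H i ^ (p / (2 * (n + 1))) := by
  have hn : (0 : ℝ) < n + 1 := by positivity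
  have hq : 0 ≤ p / (n + 1) := by positivity
  have e : ∀ y : ℝ≥0∞, y ^ p = ∏ _i : Fin (n + 1), y ^ (p / (n + 1)) := by
    intro y
    rw [Finset.prod_const, Finset.card_univ, Fintype.card_fin, ← ENNReal.rpow_natCast,
      ← ENNReal.rpow_mul]
    congr 1
    push_cast
    field_simp
  rw [e x, e A, ← Finset.prod_mul_distrib]
  refine Finset.prod_le_prod' fun i _ => ?_
  calc x ^ (p / (n + 1)) ≤ (A * H i ^ (1 / 2 : ℝ)) ^ (p / (n + 1)) :=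
        ENNReal.rpow_le_rpow (h i) hq
    _ = _ := by
        rw [ENNReal.mul_rpow_of_nonneg _ _ hq, ← ENNReal.rpow_mul]
        congr 2
        field_simp

theorem case_one (m b : ℕ) (p : ℝ) (hp : 0 ≤ p) (K : ℝ) (hKb : K = 4 ^ b)
    (Λ0 : ℝ) (w0 V : ℝ≥0∞) (x0 : X (m + 1))
    (G : (Fin (m + 1) → ℤ) → X (m + 1) → ℂ) (H : (Fin (m + 1) → ℤ) → ℝ≥0∞)
    (hreg : ∫⁻ x in {x : X (m + 1) | ‖x.1 - x0.1‖ ≤ K ∧ |x.2 - x0.2| ≤ K},
      ‖∑ α ∈ Bx (m + 1) (2 * b), FI (G α) x‖ₑ ^ p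
        ≤ w0 * (∑ α ∈ Bx (m + 1) (2 * b), H α ^ (1 / 2 : ℝ)) ^ p *
          (V * ENNReal.ofReal (K ^ (m + 1 + 1))))
    (hcard : ((Bx (m + 1) (2 * b)).card : ℝ≥0∞) = ENNReal.ofReal (K ^ (m + 1)))
    (S : Finset (Fin (m + 1) → ℤ))
    (hS : S = (Bx (m + 1) (2 * b)).filter (fun α =>
      ((Bx (m + 1) (2 * b)).sup fun α => H α ^ (1 / 2 : ℝ)) ≤
        ENNReal.ofReal (K ^ (m + 1)) * H α ^ (1 / 2 : ℝ)))
    (b' : Fin (m + 1 + 1) → E (m + 1)) (hb' : ∀ i, ∃ α ∈ S, pt (2 * b) α = b' i)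
    (hRb : Rb (Λ0 * K) ((((m + 1 : ℕ) : ℝ) + 1) / K) b') :
    ∫⁻ x in {x : X (m + 1) | ‖x.1 - x0.1‖ ≤ K ∧ |x.2 - x0.2| ≤ K},
      ‖∑ α ∈ Bx (m + 1) (2 * b), FI (G α) x‖ₑ ^ p ≤
      (w0 * (V * ENNReal.ofReal (K ^ (m + 1 + 1))) *
        (ENNReal.ofReal (K ^ (m + 1)) * ENNReal.ofReal (K ^ (m + 1))) ^ p) *
        ∑ τ ∈ tup (m + 1) b Λ0, ∏ i : Fin (m + 1 + 1), H (τ i) ^ (p / (2 * (((m + 1 : ℕ) : ℝ) + 1)))
      := by
  choose τ hτS hτb using hb'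
  have hτ : τ ∈ tup (m + 1) b Λ0 := by
    classical
    unfold tup
    refine Finset.mem_filter.2 ⟨?_, ?_⟩
    · rw [Fintype.mem_piFinset]
      intro i
      have := hτS i
      rw [hS, Finset.mem_filter] at this
      exact this.1
    · have e : (fun i => pt (2 * b) (τ i)) = b' := funext hτb
      rw [e, ← hKb]
      exact hRb
  have hx : ∀ i, (∑ α ∈ Bx (m + 1) (2 * b), H α ^ (1 / 2 : ℝ)) ≤
      (ENNReal.ofReal (K ^ (m + 1)) * ENNReal.ofReal (K ^ (m + 1))) * H (τ i) ^ (1 / 2 : ℝ) := by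
    intro i
    have h1 := hτS i
    rw [hS, Finset.mem_filter] at h1
    calc (∑ α ∈ Bx (m + 1) (2 * b), H α ^ (1 / 2 : ℝ))
        ≤ ∑ α ∈ Bx (m + 1) (2 * b), ((Bx (m + 1) (2 * b)).sup fun α => H α ^ (1 / 2 : ℝ)) :=
          Finset.sum_le_sum fun α hα => Finset.le_sup (f := fun α => H α ^ (1 / 2 : ℝ)) hα
      _ = ENNReal.ofReal (K ^ (m + 1)) *
          ((Bx (m + 1) (2 * b)).sup fun α => H α ^ (1 / 2 : ℝ)) := by
          rw [Finset.sum_const, nsmul_eq_mul, hcard]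
      _ ≤ ENNReal.ofReal (K ^ (m + 1)) *
          (ENNReal.ofReal (K ^ (m + 1)) * H (τ i) ^ (1 / 2 : ℝ)) :=
          mul_le_mul_right h1.2 _
      _ = _ := by ring
  have h2 := rpow_prod (m + 1) p hp _ _ (fun i => H (τ i)) hx
  refine hreg.trans ?_
  calc w0 * (∑ α ∈ Bx (m + 1) (2 * b), H α ^ (1 / 2 : ℝ)) ^ p *
          (V * ENNReal.ofReal (K ^ (m + 1 + 1)))
      ≤ w0 * ((ENNReal.ofReal (K ^ (m + 1)) * ENNReal.ofReal (K ^ (m + 1))) ^ p *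
          ∏ i : Fin (m + 1 + 1), H (τ i) ^ (p / (2 * (((m + 1 : ℕ) : ℝ) + 1)))) *
          (V * ENNReal.ofReal (K ^ (m + 1 + 1))) := by
        gcongr
    _ = (w0 * (V * ENNReal.ofReal (K ^ (m + 1 + 1))) *
        (ENNReal.ofReal (K ^ (m + 1)) * ENNReal.ofReal (K ^ (m + 1))) ^ p) *
          ∏ i : Fin (m + 1 + 1), H (τ i) ^ (p / (2 * (((m + 1 : ℕ) : ℝ) + 1))) := by ring
    _ ≤ _ := by
        refine mul_le_mul_right ?_ _
        exact Finset.single_le_sum (f := fun τ : Fin (m + 1 + 1) → Fin (m + 1) → ℤ =>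
          ∏ i : Fin (m + 1 + 1), H (τ i) ^ (p / (2 * (((m + 1 : ℕ) : ℝ) + 1))))
          (fun _ _ => bot_le) hτ

/-- the cells of a coarse cell -/
theorem J_le (p : ℝ) (hp : 2 ≤ p) {ι : Type} (B : Finset ι) (J A Bb : ι → ℝ≥0∞) (Hb : ι → ℝ≥0∞)
    (E T Q : ℝ≥0∞) (hJ : ∀ β ∈ B, J β ≤ 2 ^ p * (A β + Bb β)) (hB : ∀ β ∈ B, Bb β ≤ E * Hb β ^ p)
    (hT : ∑ β ∈ B, Hb β ≤ T) (hQ : T ^ p ≤ Q) :
    (∑ β ∈ B, J β ^ (2 / p)) ^ (p / 2) ≤
      8 ^ (p / 2) * ((∑ β ∈ B, A β ^ (2 / p)) ^ (p / 2) + E * Q) := by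
  have hp0 : 0 < p := by linarith
  have h2p : 0 ≤ 2 / p := by positivity
  have h2p1 : 2 / p ≤ 1 := (div_le_one hp0).2 hp
  have hp2 : 0 ≤ p / 2 := by positivity
  have hx1 : p * (2 / p) = 2 := by field_simp
  have hx2 : 2 / p * (p / 2) = 1 := by field_simp
  have h1 : ∀ β ∈ B, J β ^ (2 / p) ≤ 4 * (A β ^ (2 / p) + E ^ (2 / p) * Hb β ^ (2 : ℝ)) := by
    intro β hβ
    calc J β ^ (2 / p) ≤ (2 ^ p * (A β + Bb β)) ^ (2 / p) := ENNReal.rpow_le_rpow (hJ β hβ) h2p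
      _ = 4 * (A β + Bb β) ^ (2 / p) := by
          rw [ENNReal.mul_rpow_of_nonneg _ _ h2p, ← ENNReal.rpow_mul, hx1]
          congr 1
          norm_num
      _ ≤ 4 * (A β ^ (2 / p) + Bb β ^ (2 / p)) := by
          gcongr
          exact ENNReal.rpow_add_le_add_rpow _ _ h2p h2p1
      _ ≤ 4 * (A β ^ (2 / p) + (E * Hb β ^ p) ^ (2 / p)) := by
          gcongr
          exact hB β hβ
      _ = _ := by
          rw [ENNReal.mul_rpow_of_nonneg _ _ h2p, ← ENNReal.rpow_mul, hx1]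
  have h2 : ∑ β ∈ B, Hb β ^ (2 : ℝ) ≤ T ^ (2 : ℝ) := by
    calc ∑ β ∈ B, Hb β ^ (2 : ℝ) ≤ ∑ β ∈ B, T * Hb β := by
          refine Finset.sum_le_sum fun β hβ => ?_
          rw [ENNReal.rpow_two, pow_two]
          gcongr
          exact (Finset.single_le_sum (f := Hb) (fun _ _ => bot_le) hβ).trans hT
      _ = T * ∑ β ∈ B, Hb β := by rw [Finset.mul_sum]
      _ ≤ T * T := by gcongr
      _ = _ := by rw [ENNReal.rpow_two, pow_two]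
  have h3 : ∑ β ∈ B, J β ^ (2 / p) ≤
      4 * ((∑ β ∈ B, A β ^ (2 / p)) + E ^ (2 / p) * T ^ (2 : ℝ)) := by
    calc ∑ β ∈ B, J β ^ (2 / p)
        ≤ ∑ β ∈ B, 4 * (A β ^ (2 / p) + E ^ (2 / p) * Hb β ^ (2 : ℝ)) := Finset.sum_le_sum h1
      _ = 4 * ((∑ β ∈ B, A β ^ (2 / p)) + E ^ (2 / p) * ∑ β ∈ B, Hb β ^ (2 : ℝ)) := by
          rw [← Finset.mul_sum, Finset.sum_add_distrib, Finset.mul_sum (s := B)
            (f := fun β => Hb β ^ (2 : ℝ))]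
      _ ≤ _ := by gcongr
  calc (∑ β ∈ B, J β ^ (2 / p)) ^ (p / 2)
      ≤ (4 * ((∑ β ∈ B, A β ^ (2 / p)) + E ^ (2 / p) * T ^ (2 : ℝ))) ^ (p / 2) :=
        ENNReal.rpow_le_rpow h3 hp2
    _ = 4 ^ (p / 2) * ((∑ β ∈ B, A β ^ (2 / p)) + E ^ (2 / p) * T ^ (2 : ℝ)) ^ (p / 2) :=
        ENNReal.mul_rpow_of_nonneg _ _ hp2
    _ ≤ 4 ^ (p / 2) * (2 ^ (p / 2) * ((∑ β ∈ B, A β ^ (2 / p)) ^ (p / 2) +
          (E ^ (2 / p) * T ^ (2 : ℝ)) ^ (p / 2))) := by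
        gcongr
        exact add_rpow_le _ _ hp2
    _ = 8 ^ (p / 2) * ((∑ β ∈ B, A β ^ (2 / p)) ^ (p / 2) + E * T ^ p) := by
        rw [← mul_assoc, ← ENNReal.mul_rpow_of_nonneg _ _ hp2,
          ENNReal.mul_rpow_of_nonneg (E ^ (2 / p)) _ hp2, ← ENNReal.rpow_mul, ← ENNReal.rpow_mul,
          hx2, ENNReal.rpow_one]
        congr 3
        · norm_num
        · congr 2
          ring
    _ ≤ _ := by gcongr

theorem case_two (m b N : ℕ) (p : ℝ) (hp : 2 ≤ p) (K : ℝ)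
    (E w V D : ℝ≥0∞) (hSUB : T_SUB) (x0 : X (m + 1))
    (f : (Fin (m + 1) → ℤ) → X (m + 1) → ℂ) (hf : ∀ α ∈ Bx (m + 1) (2 * b), Continuous (f α))
    (H : (Fin (m + 1) → ℤ) → ℝ≥0∞) (S : Finset (Fin (m + 1) → ℤ)) (hSB : S ⊆ Bx (m + 1) (2 * b))
    (hreg : ∀ T ⊆ Bx (m + 1) (2 * b),
      ∫⁻ x in {x : X (m + 1) | ‖x.1 - x0.1‖ ≤ K ∧ |x.2 - x0.2| ≤ K}, ‖∑ α ∈ T, f α x‖ₑ ^ p
        ≤ w * (∑ α ∈ T, H α ^ (1 / 2 : ℝ)) ^ p * V)
    (hwt : ∀ T ⊆ Bx (m + 1) (2 * b),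
      ∫⁻ x, ‖∑ α ∈ T, f α x‖ₑ ^ p * wt N K (x - x0) ≤ E * (∑ α ∈ T, H α ^ (1 / 2 : ℝ)) ^ p)
    (hnar : ∫⁻ x in {x : X (m + 1) | ‖x.1 - x0.1‖ ≤ K ∧ |x.2 - x0.2| ≤ K}, ‖∑ α ∈ S, f α x‖ₑ ^ p
        ≤ D ^ p * (∑ β ∈ Bx (m + 1) b,
            (∫⁻ x, ‖∑ α ∈ S ∩ sub (m + 1) (2 * b) b β, f α x‖ₑ ^ p *
              wt N K (x - x0)) ^ (2 / p)) ^ (p / 2))
    (hrest : ∑ α ∈ Bx (m + 1) (2 * b) \ S, H α ^ (1 / 2 : ℝ) ≤
      (∑ α ∈ Bx (m + 1) (2 * b), H α) ^ (1 / 2 : ℝ)) :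
    ∫⁻ x in {x : X (m + 1) | ‖x.1 - x0.1‖ ≤ K ∧ |x.2 - x0.2| ≤ K},
      ‖∑ α ∈ Bx (m + 1) (2 * b), f α x‖ₑ ^ p ≤
      2 ^ p * (D ^ p * (8 ^ (p / 2) * ((∑ β ∈ Bx (m + 1) b,
            (∫⁻ x, ‖∑ α ∈ sub (m + 1) (2 * b) b β, f α x‖ₑ ^ p *
              wt N K (x - x0)) ^ (2 / p)) ^ (p / 2) +
          E * (∑ α ∈ Bx (m + 1) (2 * b), H α) ^ (p / 2))) +
        w * (∑ α ∈ Bx (m + 1) (2 * b), H α) ^ (p / 2) * V) := by
  have hp0 : 0 ≤ p := by linarith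
  have h2top : (2 : ℝ≥0∞) ^ p ≠ ∞ := ENNReal.rpow_ne_top_of_nonneg hp0 (by norm_num)
  have hcont : ∀ T ⊆ Bx (m + 1) (2 * b), Measurable (fun x => ‖∑ α ∈ T, f α x‖ₑ ^ p) := by
    intro T hT
    have h1 : Continuous (fun x => ∑ α ∈ T, f α x) :=
      continuous_finsetSum _ fun α hα => hf α (hT hα)
    exact (h1.measurable.enorm).pow_const p
  have hTp : (∑ α ∈ Bx (m + 1) (2 * b) \ S, H α ^ (1 / 2 : ℝ)) ^ p ≤
      (∑ α ∈ Bx (m + 1) (2 * b), H α) ^ (p / 2) := by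
    refine (ENNReal.rpow_le_rpow hrest hp0).trans (le_of_eq ?_)
    rw [← ENNReal.rpow_mul]
    congr 1
    ring
  have hJ := J_le p hp (Bx (m + 1) b)
    (fun β => ∫⁻ x, ‖∑ α ∈ S ∩ sub (m + 1) (2 * b) b β, f α x‖ₑ ^ p * wt N K (x - x0))
    (fun β => ∫⁻ x, ‖∑ α ∈ sub (m + 1) (2 * b) b β, f α x‖ₑ ^ p * wt N K (x - x0))
    (fun β => ∫⁻ x, ‖∑ α ∈ sub (m + 1) (2 * b) b β \ S, f α x‖ₑ ^ p * wt N K (x - x0))
    (fun β => ∑ α ∈ sub (m + 1) (2 * b) b β \ S, H α ^ (1 / 2 : ℝ))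
    E (∑ α ∈ Bx (m + 1) (2 * b) \ S, H α ^ (1 / 2 : ℝ))
    ((∑ α ∈ Bx (m + 1) (2 * b), H α) ^ (p / 2)) ?_ ?_ ?_ hTp
  · calc ∫⁻ x in {x : X (m + 1) | ‖x.1 - x0.1‖ ≤ K ∧ |x.2 - x0.2| ≤ K},
          ‖∑ α ∈ Bx (m + 1) (2 * b), f α x‖ₑ ^ p
        ≤ ∫⁻ x in {x : X (m + 1) | ‖x.1 - x0.1‖ ≤ K ∧ |x.2 - x0.2| ≤ K},
          2 ^ p * (‖∑ α ∈ S, f α x‖ₑ ^ p + ‖∑ α ∈ Bx (m + 1) (2 * b) \ S, f α x‖ₑ ^ p) := by
          refine lintegral_mono fun x => ?_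
          refine le_trans ?_ (add_rpow_le _ _ hp0)
          apply ENNReal.rpow_le_rpow _ hp0
          rw [← Finset.sum_sdiff hSB, add_comm]
          exact enorm_add_le _ _
      _ = 2 ^ p * ((∫⁻ x in {x : X (m + 1) | ‖x.1 - x0.1‖ ≤ K ∧ |x.2 - x0.2| ≤ K},
            ‖∑ α ∈ S, f α x‖ₑ ^ p) +
          (∫⁻ x in {x : X (m + 1) | ‖x.1 - x0.1‖ ≤ K ∧ |x.2 - x0.2| ≤ K},
            ‖∑ α ∈ Bx (m + 1) (2 * b) \ S, f α x‖ₑ ^ p)) := by
          rw [lintegral_const_mul' _ _ h2top, lintegral_add_left (hcont S hSB)]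
      _ ≤ _ := by
          gcongr
          · exact hnar.trans (mul_le_mul_right hJ _)
          · refine (hreg _ Finset.sdiff_subset).trans ?_
            gcongr
  · intro β hβ
    have hsub : sub (m + 1) (2 * b) b β ⊆ Bx (m + 1) (2 * b) := Finset.filter_subset _ _
    calc ∫⁻ x, ‖∑ α ∈ S ∩ sub (m + 1) (2 * b) b β, f α x‖ₑ ^ p * wt N K (x - x0)
        ≤ ∫⁻ x, 2 ^ p * (‖∑ α ∈ sub (m + 1) (2 * b) b β, f α x‖ₑ ^ p * wt N K (x - x0) +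
            ‖∑ α ∈ sub (m + 1) (2 * b) b β \ S, f α x‖ₑ ^ p * wt N K (x - x0)) := by
          refine lintegral_mono fun x => ?_
          rw [← add_mul, ← mul_assoc]
          gcongr
          refine le_trans ?_ (add_rpow_le _ _ hp0)
          apply ENNReal.rpow_le_rpow _ hp0
          have e : ∑ α ∈ S ∩ sub (m + 1) (2 * b) b β, f α x =
              ∑ α ∈ sub (m + 1) (2 * b) b β, f α x -
                ∑ α ∈ sub (m + 1) (2 * b) b β \ S, f α x := by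
            rw [eq_sub_iff_add_eq, Finset.inter_comm, add_comm]
            rw [← Finset.sum_union (by
              rw [Finset.disjoint_left]
              intro a ha hb
              exact (Finset.mem_sdiff.1 ha).2 (Finset.mem_inter.1 hb).2),
              Finset.sdiff_union_inter]
          rw [e]
          exact enorm_sub_le
      _ = _ := by
          rw [lintegral_const_mul' _ _ h2top, lintegral_add_left]
          exact (hcont _ hsub).mul ((meas_wt N K).comp (measurable_id.sub_const x0))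
  · intro β hβ
    exact hwt _ (Finset.sdiff_subset.trans (Finset.filter_subset _ _))
  · have h3 := (hSUB (m + 1) (2 * b) b 0 (by omega) (by omega)).2.2.1 ℝ≥0∞
      (fun α => if α ∉ S then H α ^ (1 / 2 : ℝ) else 0)
    rw [Finset.sdiff_eq_filter, Finset.sum_filter, h3]
    refine Finset.sum_le_sum fun β _ => ?_
    rw [Finset.sdiff_eq_filter, Finset.sum_filter]

theorem pf_BGL (hDIC : T_DIC) (hNAR : T_NAR) (hRPB : T_RPB) (hWT : T_WT) (hWM : T_WM)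
    (hFCT : T_FCT) (hSUB : T_SUB) (_hCVA : T_CVA) : T_BGL := by
  intro m
  obtain ⟨C3, Λ0, hC3, hΛ0, hdic⟩ :=
    hDIC (m + 1) (by omega) (((m + 1 : ℕ) : ℝ) + 1) (by positivity)
  refine ⟨Λ0, hΛ0, ?_⟩
  intro p hp hLoc ε hε C1 N hN
  have hp0 : 0 < p := by linarith
  have hp2 : 0 ≤ p / 2 := by positivity
  obtain ⟨CN, hCN0, hnar⟩ := hNAR m p hp hLoc ε hε C1 C3 N
  obtain ⟨CR, hCR⟩ := hRPB (m + 1) 2 (by norm_num) C1 (((m + 1 : ℕ) : ℝ) + 1)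
  obtain ⟨c2, hc2, hwt⟩ := int_wt hWM (m + 1)
  obtain ⟨V, hV, hreg⟩ := int_reg (m + 1)
  have hN' : (((m + 1 : ℕ) : ℝ) + 2) * (p / 2 + 1) ≤ N := by
    push_cast
    have e : ((m : ℝ) + 1 + 2) = m + 3 := by ring
    rw [e]
    exact hN
  set c : ℝ≥0∞ := ENNReal.ofReal CR with hc
  have hcf : c ≠ ∞ := ENNReal.ofReal_ne_top
  set w : ℝ≥0∞ := (c * 4 ^ (m + 1 + 2)) ^ (p / 2) with hw
  have hwf : w ≠ ∞ := ENNReal.rpow_ne_top_of_nonneg hp2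
    (ENNReal.mul_ne_top hcf (ENNReal.pow_ne_top (by norm_num)))
  set Z : ℝ≥0∞ := 2 ^ p * ((ENNReal.ofReal CN) ^ p * (8 ^ (p / 2) * (1 + c ^ (p / 2) * c2)) +
    w * V) with hZ
  have hZf : Z ≠ ∞ := by
    refine ENNReal.mul_ne_top (ENNReal.rpow_ne_top_of_nonneg hp0.le (by norm_num)) ?_
    refine ENNReal.add_ne_top.2 ⟨?_, ENNReal.mul_ne_top hwf hV⟩
    refine ENNReal.mul_ne_top (ENNReal.rpow_ne_top_of_nonneg hp0.le ENNReal.ofReal_ne_top) ?_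
    refine ENNReal.mul_ne_top (ENNReal.rpow_ne_top_of_nonneg hp2 (by norm_num)) ?_
    exact ENNReal.add_ne_top.2 ⟨by norm_num,
      ENNReal.mul_ne_top (ENNReal.rpow_ne_top_of_nonneg hp2 hcf) hc2⟩
  have hZf' : Z ^ (1 / p) ≠ ∞ := ENNReal.rpow_ne_top_of_nonneg (by positivity) hZf
  refine ⟨(Z ^ (1 / p)).toReal + 1, by positivity, ?_⟩
  intro b
  have hK1 : (1 : ℝ) ≤ 4 ^ b := one_le_pow₀ (by norm_num)
  have hK : (0 : ℝ) < 4 ^ b := by positivity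
  set C2e : ℝ≥0∞ := w * (V * ENNReal.ofReal (((4 : ℝ) ^ b) ^ (m + 1 + 1))) *
        (ENNReal.ofReal (((4 : ℝ) ^ b) ^ (m + 1)) * ENNReal.ofReal (((4 : ℝ) ^ b) ^ (m + 1))) ^ p
    with hC2e
  have hC2f : C2e ≠ ∞ := by
    refine ENNReal.mul_ne_top (ENNReal.mul_ne_top hwf (ENNReal.mul_ne_top hV
      ENNReal.ofReal_ne_top)) (ENNReal.rpow_ne_top_of_nonneg hp0.le
      (ENNReal.mul_ne_top ENNReal.ofReal_ne_top ENNReal.ofReal_ne_top))
  refine ⟨C2e.toReal + 1, by positivity, ?_⟩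
  intro G hG x0
  set H : (Fin (m + 1) → ℤ) → ℝ≥0∞ := fun α =>
    cv (fun z => ‖FI (G α) z‖ₑ ^ (2 : ℝ)) (kw (m + 1) (4 ^ b)) x0 with hH
  have hpt : ∀ α ∈ Bx (m + 1) (2 * b), ∀ x,
      ‖FI (G α) x‖ₑ ^ (2 : ℝ) ≤ c * Wf (m + 1) (4 ^ b) (x - x0) * H α := by
    intro α hα x
    have hnorm : ‖pt (2 * b) α‖ ≤ ((m + 1 : ℕ) : ℝ) + 1 :=
      (hSUB (m + 1) (2 * b) (2 * b) (2 * b) le_rfl le_rfl).2.2.2.2.2 α hα
    refine (hCR (4 ^ b) hK1 _ hnorm (G α) (hG α hα) x).trans ?_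
    rw [mul_assoc]
    gcongr
    exact cv_shift hWT (4 ^ b) hK _ x x0
  have hsum : ∀ T ⊆ Bx (m + 1) (2 * b), ∀ x, ‖∑ α ∈ T, FI (G α) x‖ₑ ^ p ≤
      (c * Wf (m + 1) (4 ^ b) (x - x0)) ^ (p / 2) * (∑ α ∈ T, (H α) ^ (1 / 2 : ℝ)) ^ p := by
    intro T hT x
    exact sum_pt c _ T (fun α => FI (G α) x) H (fun α hα => hpt α (hT hα) x) hp0.le
  have hregT : ∀ T ⊆ Bx (m + 1) (2 * b),
      ∫⁻ x in {x : X (m + 1) | ‖x.1 - x0.1‖ ≤ 4 ^ b ∧ |x.2 - x0.2| ≤ 4 ^ b},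
        ‖∑ α ∈ T, FI (G α) x‖ₑ ^ p
        ≤ w * (∑ α ∈ T, H α ^ (1 / 2 : ℝ)) ^ p *
          (V * ENNReal.ofReal (((4 : ℝ) ^ b) ^ (m + 1 + 1))) := by
    intro T hT
    exact hreg p hp0.le (4 ^ b) hK x0 c _ _ (hsum T hT)
  have hwtT : ∀ T ⊆ Bx (m + 1) (2 * b),
      ∫⁻ x, ‖∑ α ∈ T, FI (G α) x‖ₑ ^ p * wt N (4 ^ b) (x - x0) ≤
        (c ^ (p / 2) * (ENNReal.ofReal (((4 : ℝ) ^ b) ^ (m + 1 + 1)) * c2)) *
          (∑ α ∈ T, H α ^ (1 / 2 : ℝ)) ^ p := by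
    intro T hT
    refine (hwt N p hN' hp0.le (4 ^ b) hK x0 c _ _ (hsum T hT)).trans (le_of_eq ?_)
    ring
  have hcard : ((Bx (m + 1) (2 * b)).card : ℝ≥0∞) = ENNReal.ofReal (((4 : ℝ) ^ b) ^ (m + 1)) := by
    rw [card_Bx, pow_mul]
    norm_num
  have hcont : ∀ α ∈ Bx (m + 1) (2 * b), Continuous (FI (G α)) := fun α hα =>
    (hFCT (m + 1) (G α) (hG α hα).int).1
  set S : Finset (Fin (m + 1) → ℤ) := (Bx (m + 1) (2 * b)).filter (fun α =>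
      ((Bx (m + 1) (2 * b)).sup fun α => H α ^ (1 / 2 : ℝ)) ≤
        ENNReal.ofReal (((4 : ℝ) ^ b) ^ (m + 1)) * H α ^ (1 / 2 : ℝ)) with hS
  have hSB : S ⊆ Bx (m + 1) (2 * b) := Finset.filter_subset _ _
  classical
  have hside : ∀ s ∈ S.image (pt (2 * b)), ‖s‖ ≤ ((m + 1 : ℕ) : ℝ) + 1 := by
    intro s hs
    obtain ⟨α, hα, rfl⟩ := Finset.mem_image.1 hs
    exact (hSUB (m + 1) (2 * b) (2 * b) (2 * b) le_rfl le_rfl).2.2.2.2.2 α (hSB hα)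
  rcases hdic (4 ^ b) hK1 (S.image (pt (2 * b))) hside with
    ⟨b', hb', hRb⟩ | ⟨ν, t0, hν, ht0, hs⟩
  · -- transversal tuple
    have h1 := case_one m b p hp0.le (4 ^ b) rfl Λ0 w V x0 G H (hregT _ subset_rfl) hcard S hS
      b' (fun i => by
        obtain ⟨α, hα, hαe⟩ := Finset.mem_image.1 (hb' i)
        exact ⟨α, hα, hαe⟩) hRb
    refine h1.trans (le_trans ?_ le_add_self)
    have h2 : C2e ≤ ENNReal.ofReal (C2e.toReal + 1) := by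
      calc C2e = ENNReal.ofReal C2e.toReal := (ENNReal.ofReal_toReal hC2f).symm
        _ ≤ _ := ENNReal.ofReal_le_ofReal (by linarith)
    rw [← hC2e]
    refine mul_le_mul' h2 (le_of_eq ?_)
    refine Finset.sum_congr rfl fun τ _ => ?_
    refine Finset.prod_congr rfl fun i _ => ?_
    congr 1
    push_cast
    ring
  · -- caps near a hyperplane
    have hn := hnar b ν t0 hν ht0 S G hSB (fun α hα => ⟨hG α (hSB hα),
      hs _ (Finset.mem_image_of_mem _ hα)⟩) x0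
    have hrest : ∑ α ∈ Bx (m + 1) (2 * b) \ S, H α ^ (1 / 2 : ℝ) ≤
        (∑ α ∈ Bx (m + 1) (2 * b), H α) ^ (1 / 2 : ℝ) := by
      have hM : ((Bx (m + 1) (2 * b)).sup fun α => H α ^ (1 / 2 : ℝ)) ≤
          (∑ α ∈ Bx (m + 1) (2 * b), H α) ^ (1 / 2 : ℝ) := by
        refine Finset.sup_le fun α hα => ?_
        apply ENNReal.rpow_le_rpow _ (by norm_num)
        exact Finset.single_le_sum (f := H) (fun _ _ => bot_le) hα
      refine le_trans ?_ hM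
      have hKn0 : ENNReal.ofReal (((4 : ℝ) ^ b) ^ (m + 1)) ≠ 0 := by
        simp only [ne_eq, ENNReal.ofReal_eq_zero, not_le]
        positivity
      have h3 : ENNReal.ofReal (((4 : ℝ) ^ b) ^ (m + 1)) *
          ∑ α ∈ Bx (m + 1) (2 * b) \ S, H α ^ (1 / 2 : ℝ) ≤
          ENNReal.ofReal (((4 : ℝ) ^ b) ^ (m + 1)) *
            ((Bx (m + 1) (2 * b)).sup fun α => H α ^ (1 / 2 : ℝ)) := by
        rw [Finset.mul_sum]
        calc ∑ α ∈ Bx (m + 1) (2 * b) \ S,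
              ENNReal.ofReal (((4 : ℝ) ^ b) ^ (m + 1)) * H α ^ (1 / 2 : ℝ)
            ≤ ∑ α ∈ Bx (m + 1) (2 * b) \ S,
              ((Bx (m + 1) (2 * b)).sup fun α => H α ^ (1 / 2 : ℝ)) := by
              refine Finset.sum_le_sum fun α hα => ?_
              obtain ⟨hα1, hα2⟩ := Finset.mem_sdiff.1 hα
              by_contra hcon
              exact hα2 (Finset.mem_filter.2 ⟨hα1, (not_le.1 hcon).le⟩)
          _ = ((Bx (m + 1) (2 * b) \ S).card : ℝ≥0∞) *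
              ((Bx (m + 1) (2 * b)).sup fun α => H α ^ (1 / 2 : ℝ)) := by
              rw [Finset.sum_const, nsmul_eq_mul]
          _ ≤ ((Bx (m + 1) (2 * b)).card : ℝ≥0∞) *
              ((Bx (m + 1) (2 * b)).sup fun α => H α ^ (1 / 2 : ℝ)) := by
              gcongr
              exact Finset.sdiff_subset
          _ = _ := by rw [hcard]
      exact (ENNReal.mul_le_mul_iff_right hKn0 ENNReal.ofReal_ne_top).1 h3
    have h1 := case_two m b N p hp (4 ^ b)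
      (c ^ (p / 2) * (ENNReal.ofReal (((4 : ℝ) ^ b) ^ (m + 1 + 1)) * c2)) w
      (V * ENNReal.ofReal (((4 : ℝ) ^ b) ^ (m + 1 + 1))) (ENNReal.ofReal (CN * 2 ^ (ε * b)))
      hSUB x0 (fun α => FI (G α)) hcont H S hSB hregT hwtT hn hrest
    refine h1.trans (le_trans ?_ le_self_add)
    set A : ℝ≥0∞ := (∑ β ∈ Bx (m + 1) b,
            (∫⁻ x, ‖∑ α ∈ sub (m + 1) (2 * b) b β, FI (G α) x‖ₑ ^ p *
              wt N (4 ^ b) (x - x0)) ^ (2 / p)) ^ (p / 2) with hA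
    set Q : ℝ≥0∞ := (∑ α ∈ Bx (m + 1) (2 * b), H α) ^ (p / 2) with hQ
    set Kp : ℝ≥0∞ := ENNReal.ofReal (((4 : ℝ) ^ b) ^ (m + 1 + 1)) with hKp
    set e : ℝ≥0∞ := (ENNReal.ofReal (2 ^ (ε * b))) ^ p with he
    have he1 : 1 ≤ e := by
      apply ENNReal.one_le_rpow _ hp0
      rw [ENNReal.one_le_ofReal]
      exact Real.one_le_rpow (by norm_num) (by positivity)
    have hD : (ENNReal.ofReal (CN * 2 ^ (ε * b))) ^ p = (ENNReal.ofReal CN) ^ p * e := by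
      rw [ENNReal.ofReal_mul hCN0.le, ENNReal.mul_rpow_of_nonneg _ _ hp0.le]
    have hCfin : Z * e ≤ (ENNReal.ofReal (((Z ^ (1 / p)).toReal + 1) * 2 ^ (ε * b))) ^ p := by
      rw [ENNReal.ofReal_mul (by positivity), ENNReal.mul_rpow_of_nonneg _ _ hp0.le]
      gcongr
      calc Z = (Z ^ (1 / p)) ^ p := by
            rw [← ENNReal.rpow_mul, one_div, inv_mul_cancel₀ hp0.ne', ENNReal.rpow_one]
        _ ≤ _ := by
            apply ENNReal.rpow_le_rpow _ hp0.le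
            calc Z ^ (1 / p) = ENNReal.ofReal (Z ^ (1 / p)).toReal :=
                  (ENNReal.ofReal_toReal hZf').symm
              _ ≤ _ := ENNReal.ofReal_le_ofReal (by linarith)
    refine le_trans ?_ (mul_le_mul' hCfin le_rfl)
    rw [hD]
    have i1 : A + c ^ (p / 2) * (Kp * c2) * Q ≤ (1 + c ^ (p / 2) * c2) * (A + Kp * Q) := by
      calc A + c ^ (p / 2) * (Kp * c2) * Q = 1 * A + (c ^ (p / 2) * c2) * (Kp * Q) := by ring
        _ ≤ (1 + c ^ (p / 2) * c2) * A + (1 + c ^ (p / 2) * c2) * (Kp * Q) := by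
            gcongr
            · exact le_self_add
            · exact le_add_self
        _ = _ := by ring
    have i2 : w * Q * (V * Kp) ≤ e * (w * V) * (A + Kp * Q) := by
      calc w * Q * (V * Kp) = 1 * (w * V) * (Kp * Q) := by ring
        _ ≤ e * (w * V) * (A + Kp * Q) := by
            gcongr
            exact le_add_self
    calc 2 ^ p * ((ENNReal.ofReal CN) ^ p * e * (8 ^ (p / 2) *
            (A + c ^ (p / 2) * (Kp * c2) * Q)) + w * Q * (V * Kp))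
        ≤ 2 ^ p * ((ENNReal.ofReal CN) ^ p * e * (8 ^ (p / 2) *
            ((1 + c ^ (p / 2) * c2) * (A + Kp * Q))) + e * (w * V) * (A + Kp * Q)) := by
          gcongr
      _ = Z * e * (A + Kp * Q) := by
          rw [hZ]
          ring

end Pool.Agent.H89.BD
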