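import Pool.Agent.H93.BD.Targets

/-!
Kakeya for the functions `U`: target KUU of the board bdc_modules.
-/

set_option autoImplicit false

open MeasureTheory
open scoped ENNReal NNReal

namespace Pool.Agent.H89.BD

open Pool.Agent.H93.BD

theorem meas_gw (m N : ℕ) (r1 r2 : ℝ) (c : E m) : Measurable (gw m N r1 r2 c) := by
  unfold gw
  fun_prop

theorem meas_kw (m : ℕ) (R : ℝ) : Measurable (kw m R) := meas_gw _ _ _ _ _

theorem meas_pk (m : ℕ) (S : ℝ) (c : E m) : Measurable (pk m S c) := meas_gw _ _ _ _ _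

theorem cv_le {m : ℕ} {u k k' : X m → ℝ≥0∞} (C : ℝ)
    (h : ∀ z, k z ≤ ENNReal.ofReal C * k' z) (x : X m) :
    cv u k x ≤ ENNReal.ofReal C * cv u k' x := by
  unfold cv
  rw [← lintegral_const_mul' _ _ ENNReal.ofReal_ne_top]
  refine lintegral_mono fun z => ?_
  calc u z * k (x - z) ≤ u z * (ENNReal.ofReal C * k' (x - z)) := by gcongr; exact h _
    _ = _ := by ring

theorem kw_two (m : ℕ) (R : ℝ) (hR : 0 < R) (x : X m) :
    kw m (2 * R) x ≤ ENNReal.ofReal (4 ^ (m + 2)) * kw m R x := by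
  unfold kw gw
  rw [← ENNReal.ofReal_mul (by positivity)]
  apply ENNReal.ofReal_le_ofReal
  have h1 : ((2 * R) ^ m * (2 * R))⁻¹ ≤ (R ^ m * R)⁻¹ := by
    apply inv_anti₀ (by positivity)
    gcongr <;> linarith
  have key : ∀ a : ℝ, 0 ≤ a →
      ((1 + a / (2 * R)) ^ (m + 2))⁻¹ ≤ 2 ^ (m + 2) * ((1 + a / R) ^ (m + 2))⁻¹ := by
    intro a ha
    have h0 : 0 ≤ a / R := div_nonneg ha hR.le
    have h2 : a / (2 * R) = a / R / 2 := by field_simp
    have h3 : (1 + a / R) ≤ 2 * (1 + a / (2 * R)) := by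
      rw [h2]; linarith
    have h4 : (1 + a / R) ^ (m + 2) ≤ 2 ^ (m + 2) * (1 + a / (2 * R)) ^ (m + 2) := by
      rw [← mul_pow]
      gcongr
    have h5 : (0 : ℝ) < 1 + a / R := by linarith
    have h6 : (0 : ℝ) < 1 + a / (2 * R) := by rw [h2]; linarith
    rw [← div_eq_mul_inv, le_div_iff₀ (by positivity), inv_mul_le_iff₀ (by positivity)]
    linarith [h4]
  have h7 := key _ (norm_nonneg (x.1 + (2 * x.2) • (0 : E m)))
  have h8 := key _ (abs_nonneg x.2)
  have e : (4 : ℝ) ^ (m + 2) = 2 ^ (m + 2) * 2 ^ (m + 2) := by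
    rw [← mul_pow]; norm_num
  calc ((2 * R) ^ m * (2 * R))⁻¹ * ((1 + ‖x.1 + (2 * x.2) • (0 : E m)‖ / (2 * R)) ^ (m + 2))⁻¹
        * ((1 + |x.2| / (2 * R)) ^ (m + 2))⁻¹
      ≤ (R ^ m * R)⁻¹ * (2 ^ (m + 2) * ((1 + ‖x.1 + (2 * x.2) • (0 : E m)‖ / R) ^ (m + 2))⁻¹)
        * (2 ^ (m + 2) * ((1 + |x.2| / R) ^ (m + 2))⁻¹) := by
        gcongr
    _ = _ := by rw [e]; ring

theorem Am_add {m : ℕ} (b : Fin (m + 1) → E m) (s t : Fin (m + 1) → ℝ) :
    Am b (s + t) = Am b s + Am b t := by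
  unfold Am
  simp only [Pi.add_apply, add_smul, Finset.sum_add_distrib]

theorem Am_single {m : ℕ} (b : Fin (m + 1) → E m) (i : Fin (m + 1)) (t : ℝ) :
    Am b (Pi.single i t) = t • vv (b i) := by
  unfold Am
  rw [Finset.sum_eq_single i]
  · simp
  · intro j _ hj
    simp [hj]
  · intro h
    exact absurd (Finset.mem_univ i) h

theorem Am_zero {m : ℕ} (b : Fin (m + 1) → E m) : Am b 0 = 0 := by
  unfold Am
  simp

theorem Am_cont {m : ℕ} (b : Fin (m + 1) → E m) : Continuous (Am b) := by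
  unfold Am
  fun_prop

theorem Am_sum_sub {m : ℕ} (b : Fin (m + 1) → E m) (x : X m) (s : Fin (m + 1) → ℝ)
    (i : Fin (m + 1)) (t : ℝ) :
    x + Am b (s + Pi.single i t) = (x + Am b s) + t • vv (b i) := by
  rw [Am_add, Am_single, add_assoc]

/-- averages of one summand -/
theorem av_one {m : ℕ} (Cw Ca : ℝ) (hWC : ∀ R R' : ℝ, 0 < R' → R' ≤ R → ∀ x : X m,
      cv (kw m R') (kw m R) x ≤ ENNReal.ofReal Cw * kw m R x)
    (hCVA : T_CVA) (b : Fin (m + 1) → E m) (ρ : ℝ) (hρ : 0 < ρ) (r : ℝ) (hr : 0 < r) (hrρ : r ≤ ρ)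
    (hA : ∀ f : X m → ℝ≥0∞, Measurable f → ∀ x : X m,
      ∫⁻ s in Qc (m + 1) (2 * ρ), f (x + Am b s)
        ≤ ENNReal.ofReal (Ca * (2 * ρ) ^ (m + 1)) * cv f (kw m (2 * ρ)) x)
    (w : X m → ℝ≥0∞) (hw : Measurable w) (x : X m) :
    ∫⁻ s in Qc (m + 1) (2 * ρ), cv w (kw m r) (x + Am b s)
      ≤ ENNReal.ofReal (Ca * (2 * ρ) ^ (m + 1)) *
        (ENNReal.ofReal Cw * (ENNReal.ofReal (4 ^ (m + 2)) * cv w (kw m ρ) x)) := by
  have h1 := hCVA m w (kw m r) (kw m (2 * ρ)) hw (meas_kw _ _) (meas_kw _ _)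
  refine (hA _ h1.2.2.1 x).trans ?_
  gcongr
  rw [h1.2.1 x]
  refine (cv_le Cw (fun z => hWC (2 * ρ) r hr (by linarith) z) x).trans ?_
  gcongr
  exact cv_le _ (fun z => kw_two m ρ hρ z) x

theorem pf_KUU (hCHN : T_CHN) (hUA : T_UA) (hAKW : T_AKW) (hWC : T_WC) (hWP : T_WP)
    (hCVA : T_CVA) (_hWM : T_WM) : T_KUU := by
  intro m hm γ hγ hγm R1 Λ
  obtain ⟨CU, hCU1, hCU⟩ := hUA m R1
  obtain ⟨CA, hCA⟩ := hAKW m R1 Λ
  obtain ⟨CW, hCW⟩ := hWC m
  obtain ⟨CP, hCP⟩ := hWP m R1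
  set C0 : ℝ := max CU (max CA 0 * (max CW 0 * 4 ^ (m + 2))) with hC0
  have hC01 : 1 ≤ C0 := le_max_of_le_left hCU1
  obtain ⟨C', hC'1, hC'⟩ := hCHN (m + 1) (by omega) γ hγ (by push_cast; simpa using hγm) C0 hC01
  set D : ℝ := max 1 ((max CP 1) ^ (γ * (m + 1))) with hD
  have hD1 : 1 ≤ D := le_max_left _ _
  refine ⟨C' * D, one_le_mul_of_one_le_of_one_le hC'1 hD1, ?_⟩
  intro S L hS hL b hb hTr I c hc u hu x
  have hS0 : 0 < S := by linarith
  have hL0 : 0 < L := by linarith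
  have hlogL : 0 < Real.log L := Real.log_pos (by linarith)
  have hlogS : 0 ≤ Real.log S := Real.log_nonneg hS
  have hy0 : 0 ≤ Real.log S / Real.log L := div_nonneg hlogS hlogL.le
  set R : ℕ → ℝ := fun j => min (S * L ^ j) (S ^ 2) with hR
  have hRpos : ∀ j, 0 < R j := fun j => lt_min (by positivity) (by positivity)
  have hR0 : R 0 = S := by
    simp only [hR, pow_zero, mul_one]
    exact min_eq_left (by nlinarith)
  have hRmono : ∀ j, R j ≤ R (j + 1) := by
    intro j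
    apply min_le_min_right
    rw [pow_succ]
    have : 0 < S * L ^ j := by positivity
    nlinarith
  have hRL : ∀ j, R (j + 1) ≤ L * R j := by
    intro j
    simp only [hR]
    rw [mul_min_of_nonneg _ _ hL0.le]
    apply min_le_min
    · rw [pow_succ]; apply le_of_eq; ring
    · have : 0 < S ^ 2 := by positivity
      nlinarith
  have hRS : ∀ j, R j ≤ S ^ 2 := fun j => min_le_right _ _
  set J : ℕ := max 1 ⌈Real.log S / Real.log L⌉₊ with hJ
  have hJ1 : 1 ≤ J := le_max_left _ _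
  have hJle : (J : ℝ) ≤ Real.log S / Real.log L + 2 := by
    rw [hJ, Nat.cast_max]
    apply max_le
    · push_cast; linarith
    · have := Nat.ceil_lt_add_one hy0
      linarith
  have hRJ : R J = S ^ 2 := by
    apply min_eq_right
    have h1 : Real.log S / Real.log L ≤ J := by
      refine (Nat.le_ceil _).trans ?_
      exact_mod_cast le_max_right _ _
    have h2 : S ≤ L ^ J := by
      rw [div_le_iff₀ hlogL] at h1
      have h3 : Real.log S ≤ Real.log (L ^ J) := by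
        rw [Real.log_pow]; exact h1
      exact (Real.log_le_log_iff hS0 (by positivity)).1 h3
    nlinarith
  -- the functions
  set V : ℕ → Fin (m + 1) → (Fin (m + 1) → ℝ) → ℝ≥0∞ := fun j i s =>
    ∑ α ∈ I i, cv (cv (u i α) (pk m S (c α))) (kw m (R j)) (x + Am b s) with hV
  have hupk : ∀ i α, Measurable (cv (u i α) (pk m S (c α))) := fun i α =>
    (hCVA m (u i α) (pk m S (c α)) (kw m 1) (hu i α) (meas_pk _ _ _) (meas_kw _ _)).2.2.1
  have hcvm : ∀ j i α, Measurable (cv (cv (u i α) (pk m S (c α))) (kw m (R j))) := fun j i α =>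
    (hCVA m (cv (u i α) (pk m S (c α))) (kw m (R j)) (kw m 1) (hupk i α) (meas_kw _ _)
      (meas_kw _ _)).2.2.1
  have hshift : Measurable (fun s : Fin (m + 1) → ℝ => x + Am b s) :=
    (continuous_const.add (Am_cont b)).measurable
  have hVm : ∀ j i, Measurable (V j i) := by
    intro j i
    simp only [hV]
    refine Finset.measurable_sum _ fun α _ => ?_
    exact (hcvm j i α).comp hshift
  have hV2 : ∀ j < J, ∀ i s t, |t| ≤ 4 * R (j + 1) →
      V j i (s + Pi.single i t) ≤ ENNReal.ofReal C0 * V j i s := by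
    intro j _ i s t ht
    simp only [hV]
    rw [Finset.mul_sum]
    refine Finset.sum_le_sum fun α hα => ?_
    rw [Am_sum_sub]
    refine (hCU S (R j) (R (j + 1)) L hS (hRpos j) (by linarith) (hRL j) (hRS _) (c α) (b i)
      (hc i α hα).1 (hb i) (hc i α hα).2 (u i α) (hu i α) (x + Am b s) t ht).trans ?_
    gcongr
    exact le_max_left _ _
  have hV3 : ∀ j < J, ∀ i s0, av (m + 1) (2 * R (j + 1)) (V j i) s0
      ≤ ENNReal.ofReal C0 * V (j + 1) i s0 := by
    intro j _ i s0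
    unfold av
    have h2 : ∫⁻ s in Qc (m + 1) (2 * R (j + 1)), V j i (s0 + s)
        = ∑ α ∈ I i, ∫⁻ s in Qc (m + 1) (2 * R (j + 1)),
          cv (cv (u i α) (pk m S (c α))) (kw m (R j)) ((x + Am b s0) + Am b s) := by
      rw [← lintegral_finsetSum]
      · refine lintegral_congr fun s => ?_
        simp only [hV]
        refine Finset.sum_congr rfl fun α _ => ?_
        rw [Am_add, add_assoc]
      · intro α _
        refine (hcvm j i α).comp ?_
        exact (continuous_const.add (Am_cont b)).measurable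
    rw [h2]
    have h3 : ∀ α ∈ I i, ∫⁻ s in Qc (m + 1) (2 * R (j + 1)),
          cv (cv (u i α) (pk m S (c α))) (kw m (R j)) ((x + Am b s0) + Am b s)
        ≤ ENNReal.ofReal (CA * (2 * R (j + 1)) ^ (m + 1)) *
        (ENNReal.ofReal CW * (ENNReal.ofReal (4 ^ (m + 2)) *
          cv (cv (u i α) (pk m S (c α))) (kw m (R (j + 1))) (x + Am b s0))) := by
      intro α _
      exact av_one CW CA hCW hCVA b (R (j + 1)) (hRpos _) (R j) (hRpos j) (hRmono j)
        (hCA b hb hTr (2 * R (j + 1)) (by have := hRpos (j + 1); positivity)) _ (hupk i α) _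
    refine (mul_le_mul_right (Finset.sum_le_sum h3) _).trans ?_
    simp only [hV]
    rw [Finset.mul_sum, Finset.mul_sum]
    refine Finset.sum_le_sum fun α _ => ?_
    have hρ := hRpos (j + 1)
    have e1 : (ENNReal.ofReal ((2 * (2 * R (j + 1))) ^ (m + 1)))⁻¹ *
        ENNReal.ofReal (CA * (2 * R (j + 1)) ^ (m + 1)) ≤ ENNReal.ofReal (max CA 0) := by
      rw [← ENNReal.ofReal_inv_of_pos (by positivity), ← ENNReal.ofReal_mul (by positivity)]
      apply ENNReal.ofReal_le_ofReal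
      rw [inv_mul_le_iff₀ (by positivity)]
      have h5 : (2 * R (j + 1)) ^ (m + 1) ≤ (2 * (2 * R (j + 1))) ^ (m + 1) := by
        gcongr; linarith
      have h6 : CA ≤ max CA 0 := le_max_left _ _
      have h7 : 0 ≤ max CA 0 := le_max_right _ _
      calc CA * (2 * R (j + 1)) ^ (m + 1) ≤ max CA 0 * (2 * R (j + 1)) ^ (m + 1) := by gcongr
        _ ≤ max CA 0 * (2 * (2 * R (j + 1))) ^ (m + 1) := by gcongr
        _ = _ := by ring
    have e2 : ENNReal.ofReal CW ≤ ENNReal.ofReal (max CW 0) :=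
      ENNReal.ofReal_le_ofReal (le_max_left _ _)
    calc (ENNReal.ofReal ((2 * (2 * R (j + 1))) ^ (m + 1)))⁻¹ *
          (ENNReal.ofReal (CA * (2 * R (j + 1)) ^ (m + 1)) *
            (ENNReal.ofReal CW * (ENNReal.ofReal (4 ^ (m + 2)) *
              cv (cv (u i α) (pk m S (c α))) (kw m (R (j + 1))) (x + Am b s0))))
        = ((ENNReal.ofReal ((2 * (2 * R (j + 1))) ^ (m + 1)))⁻¹ *
          ENNReal.ofReal (CA * (2 * R (j + 1)) ^ (m + 1))) *
            (ENNReal.ofReal CW * ENNReal.ofReal (4 ^ (m + 2))) *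
              cv (cv (u i α) (pk m S (c α))) (kw m (R (j + 1))) (x + Am b s0) := by ring
      _ ≤ ENNReal.ofReal (max CA 0) * (ENNReal.ofReal (max CW 0) * ENNReal.ofReal (4 ^ (m + 2))) *
              cv (cv (u i α) (pk m S (c α))) (kw m (R (j + 1))) (x + Am b s0) := by
          gcongr
      _ ≤ ENNReal.ofReal C0 *
              cv (cv (u i α) (pk m S (c α))) (kw m (R (j + 1))) (x + Am b s0) := by
          gcongr
          rw [← ENNReal.ofReal_mul (le_max_right _ _), ← ENNReal.ofReal_mul (le_max_right _ _)]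
          exact ENNReal.ofReal_le_ofReal (le_max_right _ _)
  have hfin := hC' J R hJ1 (hRpos 0) hRmono V hVm hV2 hV3 0
  rw [hRJ] at hfin
  have hV0 : (fun s => ∏ i, V 0 i s ^ γ) = (fun s => ∏ i, (∑ α ∈ I i,
          cv (cv (u i α) (pk m S (c α))) (kw m S) (x + Am b s)) ^ γ) := by
    funext s
    simp only [hV, hR0]
  rw [hV0] at hfin
  refine hfin.trans ?_
  have hVJ : ∀ i, V J i 0 ≤ ENNReal.ofReal (max CP 1) * ∑ α ∈ I i, cv (u i α) (kw m (S ^ 2)) x := by
    intro i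
    simp only [hV, hRJ, Am_zero, add_zero]
    rw [Finset.mul_sum]
    refine Finset.sum_le_sum fun α hα => ?_
    rw [(hCVA m (u i α) (pk m S (c α)) (kw m (S ^ 2)) (hu i α) (meas_pk _ _ _)
      (meas_kw _ _)).2.1 x]
    refine (cv_le CP (fun z => hCP S (S ^ 2) hS le_rfl (c α) (hc i α hα).1 z) x).trans ?_
    gcongr
    exact le_max_left _ _
  have hprod : ∏ i, V J i 0 ^ γ ≤ ENNReal.ofReal D *
      ∏ i, (∑ α ∈ I i, cv (u i α) (kw m (S ^ 2)) x) ^ γ := by
    calc ∏ i, V J i 0 ^ γ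
        ≤ ∏ i : Fin (m + 1), (ENNReal.ofReal (max CP 1) ^ γ *
          (∑ α ∈ I i, cv (u i α) (kw m (S ^ 2)) x) ^ γ) := by
          refine Finset.prod_le_prod' fun i _ => ?_
          rw [← ENNReal.mul_rpow_of_nonneg _ _ hγ.le]
          exact ENNReal.rpow_le_rpow (hVJ i) hγ.le
      _ = (ENNReal.ofReal (max CP 1) ^ γ) ^ (m + 1) *
          ∏ i, (∑ α ∈ I i, cv (u i α) (kw m (S ^ 2)) x) ^ γ := by
          rw [Finset.prod_mul_distrib, Finset.prod_const, Finset.card_univ, Fintype.card_fin]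
      _ ≤ _ := by
          gcongr
          rw [← ENNReal.rpow_natCast, ← ENNReal.rpow_mul,
            ENNReal.ofReal_rpow_of_pos (by positivity)]
          apply ENNReal.ofReal_le_ofReal
          push_cast
          exact le_max_right _ _
  have hpow : C' ^ J * D ≤ (C' * D) ^ (Real.log S / Real.log L + 2) := by
    rw [Real.mul_rpow (by linarith) (by linarith)]
    have h1 : C' ^ J ≤ C' ^ (Real.log S / Real.log L + 2) := by
      rw [← Real.rpow_natCast]
      exact Real.rpow_le_rpow_of_exponent_le hC'1 hJle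
    have h2 : D ≤ D ^ (Real.log S / Real.log L + 2) := by
      conv_lhs => rw [← Real.rpow_one D]
      exact Real.rpow_le_rpow_of_exponent_le hD1 (by linarith)
    have h3 : 0 ≤ C' ^ (Real.log S / Real.log L + 2) := by positivity
    have h4 : 0 ≤ D := by linarith
    calc C' ^ J * D ≤ C' ^ (Real.log S / Real.log L + 2) * D := by gcongr
      _ ≤ _ := by gcongr
  calc ENNReal.ofReal (C' ^ J) * ∏ i, V J i 0 ^ γ
      ≤ ENNReal.ofReal (C' ^ J) * (ENNReal.ofReal D *
        ∏ i, (∑ α ∈ I i, cv (u i α) (kw m (S ^ 2)) x) ^ γ) := by gcongr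
    _ = ENNReal.ofReal (C' ^ J * D) * ∏ i, (∑ α ∈ I i, cv (u i α) (kw m (S ^ 2)) x) ^ γ := by
        rw [ENNReal.ofReal_mul (by positivity), mul_assoc]
    _ ≤ _ := by
        gcongr

end Pool.Agent.H89.BD
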